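import Pool.Agent.helper5.PR.SpecZ

set_option autoImplicit false

namespace Pool.Agent.PR

open Matrix Module

/-- the affine homomorphism attached to a cocycle -/
noncomputable def Z_AFF_a {K Q : Type} [Field K] [Group Q] (ψ : Q →* Kˣ) (b : Q → K)
    (hb1 : b 1 = 0) (hb : ∀ g h, b (g * h) = b g + (ψ g : K) * b h) :
    Q →* Matrix (Fin 2) (Fin 2) K where
  toFun g := !![(ψ g : K), b g; 0, 1]
  map_one' := by
    rw [map_one, hb1]
    ext i j
    fin_cases i <;> fin_cases j <;> simp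
  map_mul' g h := by
    rw [hb]
    ext i j
    fin_cases i <;> fin_cases j <;> simp [Matrix.mul_apply, Fin.sum_univ_two, add_comm]

/-- adding a block of ones -/
noncomputable def Z_AFF_bl {K Q : Type} [Field K] [Group Q] (m : ℕ)
    (f : Q →* Matrix (Fin 2) (Fin 2) K) : Q →* Matrix (Fin (2 + m)) (Fin (2 + m)) K where
  toFun g := Matrix.reindexAlgEquiv K K finSumFinEquiv
    (Matrix.fromBlocks (f g) 0 0 (1 : Matrix (Fin m) (Fin m) K))
  map_one' := by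
    rw [map_one, Matrix.fromBlocks_one, map_one]
  map_mul' g h := by
    rw [← map_mul, Matrix.fromBlocks_multiply, map_mul]
    simp

theorem Z_AFF_bl_inj {K Q : Type} [Field K] [Group Q] (m : ℕ)
    (f : Q →* Matrix (Fin 2) (Fin 2) K) (g : Q) (h : Z_AFF_bl m f g = 1) : f g = 1 := by
  have h1 : Matrix.fromBlocks (f g) 0 0 (1 : Matrix (Fin m) (Fin m) K) = 1 := by
    apply (Matrix.reindexAlgEquiv K K (finSumFinEquiv (m := 2) (n := m))).injective
    rw [map_one]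
    exact h
  rw [← Matrix.fromBlocks_one, Matrix.fromBlocks_inj] at h1
  exact h1.1

theorem Z_AFF (hCHAR : Y_CHAR_stmt) : Z_AFF_stmt := by
  intro K _ _ Q _ hFG hTF U hU hcU c ψ hc hcinj hcψ hg k hk
  obtain ⟨g₀, hg₀⟩ := hg
  have hcom : ∀ g : Q, g * g₀ * g⁻¹ * g₀⁻¹ ∈ U := by
    intro g
    exact hcU (Subgroup.commutator_mem_commutator (Subgroup.mem_top g) (Subgroup.mem_top g₀))
  have c1 : c 1 = 0 := by
    have h1 := hc 1 1
    rw [mul_one] at h1
    have h2 : c 1 + 0 = c 1 + c 1 := by rw [add_zero]; exact h1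
    exact (add_left_cancel h2).symm
  have cinv : ∀ u : U, c u⁻¹ = - c u := by
    intro u
    have h1 := hc u u⁻¹
    rw [mul_inv_cancel, c1] at h1
    exact (neg_eq_of_add_eq_zero_right h1.symm).symm
  let β : Q → K := fun g => c ⟨g * g₀ * g⁻¹ * g₀⁻¹, hcom g⟩
  have hβ1 : β 1 = 0 := by
    have : (⟨1 * g₀ * (1 : Q)⁻¹ * g₀⁻¹, hcom 1⟩ : U) = 1 := by
      apply Subtype.ext
      change 1 * g₀ * (1 : Q)⁻¹ * g₀⁻¹ = 1
      group
    change c _ = 0
    rw [this, c1]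
  have hβ : ∀ g h, β (g * h) = β g + (ψ g : K) * β h := by
    intro g h
    have hmem : g * (h * g₀ * h⁻¹ * g₀⁻¹) * g⁻¹ ∈ U := hU.conj_mem _ (hcom h) g
    have e1 : (⟨g * h * g₀ * (g * h)⁻¹ * g₀⁻¹, hcom (g * h)⟩ : U) =
        ⟨g * (h * g₀ * h⁻¹ * g₀⁻¹) * g⁻¹, hmem⟩ * ⟨g * g₀ * g⁻¹ * g₀⁻¹, hcom g⟩ := by
      apply Subtype.ext
      change g * h * g₀ * (g * h)⁻¹ * g₀⁻¹ =
        g * (h * g₀ * h⁻¹ * g₀⁻¹) * g⁻¹ * (g * g₀ * g⁻¹ * g₀⁻¹)
      group
    have e2 := hcψ g ⟨h * g₀ * h⁻¹ * g₀⁻¹, hcom h⟩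
      ⟨g * (h * g₀ * h⁻¹ * g₀⁻¹) * g⁻¹, hmem⟩ rfl
    change c _ = c _ + (ψ g : K) * c _
    rw [e1, hc, e2, add_comm]
  have hβu : ∀ u : U, β u = (1 - (ψ g₀ : K)) * c u := by
    intro u
    have hmem : g₀ * (u⁻¹ : U) * g₀⁻¹ ∈ U := hU.conj_mem _ (u⁻¹ : U).2 g₀
    have e1 : (⟨(u : Q) * g₀ * (u : Q)⁻¹ * g₀⁻¹, hcom u⟩ : U) = u * ⟨g₀ * (u⁻¹ : U) * g₀⁻¹, hmem⟩ := by
      apply Subtype.ext
      change (u : Q) * g₀ * (u : Q)⁻¹ * g₀⁻¹ = u * (g₀ * (u : Q)⁻¹ * g₀⁻¹)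
      group
    have e2 := hcψ g₀ u⁻¹ ⟨g₀ * (u⁻¹ : U) * g₀⁻¹, hmem⟩ rfl
    change c _ = _
    rw [e1, hc, e2, cinv]
    ring
  have hne : (1 - (ψ g₀ : K)) ≠ 0 := by
    intro h1
    apply hg₀
    apply Units.ext
    rw [Units.val_one]
    exact (sub_eq_zero.1 h1).symm
  let b : Q → K := fun g => β g / (1 - (ψ g₀ : K))
  have hb1 : b 1 = 0 := by
    change β 1 / _ = 0
    rw [hβ1, zero_div]
  have hb : ∀ g h, b (g * h) = b g + (ψ g : K) * b h := by
    intro g h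
    change β (g * h) / _ = β g / _ + (ψ g : K) * (β h / _)
    rw [hβ]
    ring
  have hbu : ∀ u : U, b u = c u := by
    intro u
    change β u / _ = c u
    rw [hβu, mul_div_cancel_left₀ _ hne]
  let α := Z_AFF_a ψ b hb1 hb
  have hα : ∀ g, α g = !![(ψ g : K), b g; 0, 1] := fun g => rfl
  have hK : ∀ g ∈ α.toHomUnits.ker, ∀ j : ℕ, 0 < j → g ^ j ∈ commutator Q → g = 1 := by
    intro g hg j hj hgj
    have h1 : g ^ j ∈ α.toHomUnits.ker := Subgroup.pow_mem _ hg j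
    have h2 : α (g ^ j) = 1 := by
      have h3 := congrArg Units.val (MonoidHom.mem_ker.1 h1)
      exact h3
    have h3 : b (g ^ j) = 0 := by
      have h4 := congrFun (congrFun h2 0) 1
      rw [hα] at h4
      simpa using h4
    have h4 : c ⟨g ^ j, hcU hgj⟩ = c 1 := by
      rw [c1, ← hbu]
      exact h3
    have h5 : g ^ j = 1 := congrArg Subtype.val (hcinj h4)
    by_contra hg1
    exact hTF g hg1 j hj h5
  obtain ⟨θ, hθ⟩ := hCHAR K Q hFG α.toHomUnits.ker hK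
  let γ : Q →* Matrix (Fin 2) (Fin 2) K :=
    { toFun := fun g => (θ g : K) • α g
      map_one' := by rw [map_one, map_one, Units.val_one, one_smul]
      map_mul' := by
        intro g h
        rw [map_mul, map_mul, Units.val_mul, Matrix.smul_mul, Matrix.mul_smul, smul_smul] }
  obtain ⟨m, rfl⟩ : ∃ m, k = 2 + m := ⟨k - 2, by omega⟩
  refine ⟨(Z_AFF_bl m γ).toHomUnits, ?_⟩
  rw [injective_iff_map_eq_one]
  intro g hg
  have h1 : γ g = 1 := by
    apply Z_AFF_bl_inj m γ g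
    exact congrArg Units.val hg
  have h2 : (θ g : K) • α g = 1 := h1
  have h3 : (θ g : K) = 1 := by
    have h4 := congrFun (congrFun h2 1) 1
    rw [hα] at h4
    simpa using h4
  have h4 : α g = 1 := by
    rw [h3, one_smul] at h2
    exact h2
  apply hθ g
  · rw [MonoidHom.mem_ker]
    apply Units.ext
    exact h4
  · apply Units.ext
    exact h3

end Pool.Agent.PR
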